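import Pool.Agent.EQC.Stmts

/-!
# Squad EQC, row DAT: all data exist as soon as there is a high vertex
-/

open SimpleGraph Finset

namespace Pool.Agent.EQC.H70

theorem cnt_congr {α : Type} [Fintype α] {p q : α → Prop} (h : ∀ a, p a ↔ q a) :
    cnt p = cnt q := congrArg cnt (funext fun a => propext (h a))

open Classical in
theorem exists_of_cnt {α : Type} [Fintype α] {p : α → Prop} (h : 0 < cnt p) : ∃ a, p a := by
  unfold cnt at h
  obtain ⟨a, ha⟩ := Finset.card_pos.1 h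
  exact ⟨a, (Finset.mem_filter.1 ha).2⟩

theorem dat (mat : MatStmt) (ori : OriStmt) (rnk : RnkStmt) (hub : HubStmt) : DatStmt := by
  classical
  intro V _ G c D hbig ⟨v0, hv0⟩
  obtain ⟨M, hM⟩ := mat V G D
  obtain ⟨Out, hO⟩ := ori V G D M hM
  obtain ⟨r0, hr0, hrl⟩ : ∃ r0, Hi G D r0 ∧ ((∃ v, LT G D Out v) → LT G D Out r0) := by
    by_cases h : ∃ v, LT G D Out v
    · obtain ⟨v, hv⟩ := h
      exact ⟨v, hv.1, fun _ => hv⟩
    · exact ⟨v0, hv0, fun h' => absurd h' h⟩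
  obtain ⟨rk, hrk⟩ := rnk V G r0
  have htau : ∀ x, ∃ t, Hi G D x → Out x t ∧ (Hi G D t → ∀ v, Out x v → Hi G D v ∧ rk v ≤ rk t) := by
    intro x
    by_cases hx : Hi G D x
    · have hpos : 0 < cnt (fun v => Out x v) := by
        have h1 := hO.outdeg x hx
        have h2 : D ≤ dg G x := hx
        have h3 := hbig.2
        omega
      by_cases hlow : ∃ y, ¬ Hi G D y ∧ Out x y
      · obtain ⟨y, hy1, hy2⟩ := hlow
        exact ⟨y, fun _ => ⟨hy2, fun h => absurd h hy1⟩⟩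
      · push Not at hlow
        obtain ⟨v1, hv1⟩ := exists_of_cnt hpos
        obtain ⟨t, ht, hmax⟩ := Finset.exists_max_image (univ.filter fun v => Out x v) rk
          ⟨v1, Finset.mem_filter.2 ⟨Finset.mem_univ _, hv1⟩⟩
        refine ⟨t, fun _ => ⟨(Finset.mem_filter.1 ht).2, fun _ v hv => ⟨?_, ?_⟩⟩⟩
        · by_contra hn
          exact hlow v hn hv
        · exact hmax v (Finset.mem_filter.2 ⟨Finset.mem_univ _, hv⟩)
    · exact ⟨x, fun h => absurd h hx⟩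
  choose tau htau using htau
  obtain ⟨N, hN⟩ : ∃ N : V → Finset V, N = fun x => univ.filter (fun v =>
    Hi G D x ∧ x ≠ r0 ∧ Hi G D v ∧ Out x v ∧ v ≠ tau x) := ⟨_, rfl⟩
  have memN : ∀ x v, v ∈ N x ↔ Hi G D x ∧ x ≠ r0 ∧ Hi G D v ∧ Out x v ∧ v ≠ tau x := by
    intro x v
    rw [hN, Finset.mem_filter]
    exact ⟨fun h => h.2, fun h => ⟨Finset.mem_univ _, h⟩⟩
  obtain ⟨F, par, hF1, hF2, hF3, hF4⟩ := hub V V rk N (fun x u _ v _ h => hrk.inj u v h)
  refine ⟨⟨M, Out, r0, rk, tau, F, par, hM, hO, hrk, hr0, hrl, ?_, ?_, ?_, ?_, ?_, ?_⟩⟩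
  · intro x hx _
    exact (htau x hx).1
  · intro x hx _ ht
    exact (htau x hx).2 ht
  · intro x _ _ v hv
    have h1 := (memN x v).1 (hF1 x hv)
    exact ⟨h1.2.2.1, h1.2.2.2.1, h1.2.2.2.2⟩
  · intro x _ _ v hv w hw
    obtain ⟨h1, h2, h3⟩ := hF2 x v hv w hw
    have h4 := (memN x w).1 h1
    exact ⟨h4.2.2.1, h4.2.2.2.1, h4.2.2.2.2, h2, h3⟩
  · intro x _ _ u hu v hv h
    exact hF3 x u hu v hv h
  · intro v
    have h1 := hF4 v
    have h2 : cnt (fun x => v ∈ N x) =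
        cnt (fun x => Hi G D x ∧ x ≠ r0 ∧ Hi G D v ∧ Out x v ∧ v ≠ tau x) :=
      cnt_congr fun x => memN x v
    have h3 : cnt (fun x => v ∈ F x) = cnt (fun x => Hi G D x ∧ x ≠ r0 ∧ v ∈ F x) := by
      apply cnt_congr
      intro x
      constructor
      · intro h
        have h4 := (memN x v).1 (hF1 x h)
        exact ⟨h4.1, h4.2.1, h⟩
      · exact fun h => h.2.2
    rw [← h2, ← h3]
    exact h1

end Pool.Agent.EQC.H70
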