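import Pool.Agent.EQC.Stmts

/-!
# Squad EQC, row DIG: digits in base `B`
-/

open Finset

namespace Pool.Agent.EQC.H70

theorem digits_eq (B : ℕ) : ∀ (q : ℕ) (n1 n2 : ℕ → ℕ), (∀ k < q, n1 k < B) → (∀ k < q, n2 k < B) →
    ∑ k ∈ range q, n1 k * B ^ k = ∑ k ∈ range q, n2 k * B ^ k → ∀ k < q, n1 k = n2 k := by
  intro q
  induction q with
  | zero => intro n1 n2 _ _ _ k hk; exact absurd hk (Nat.not_lt_zero k)
  | succ q ih =>
    intro n1 n2 h1 h2 h
    have hs : ∀ n : ℕ → ℕ, ∑ k ∈ range (q + 1), n k * B ^ k =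
        B * ∑ k ∈ range q, n (k + 1) * B ^ k + n 0 := by
      intro n
      rw [Finset.sum_range_succ', Finset.mul_sum, pow_zero, mul_one]
      congr 1
      refine Finset.sum_congr rfl fun k _ => ?_
      rw [pow_succ]
      ring
    rw [hs, hs] at h
    have hB : 0 < B := lt_of_le_of_lt (Nat.zero_le _) (h1 0 (Nat.succ_pos q))
    have h0 : n1 0 = n2 0 := by
      have h3 := congrArg (· % B) h
      simp only [Nat.mul_add_mod] at h3
      rwa [Nat.mod_eq_of_lt (h1 0 (Nat.succ_pos q)), Nat.mod_eq_of_lt (h2 0 (Nat.succ_pos q))] at h3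
    rw [h0] at h
    have h4 : ∑ k ∈ range q, n1 (k + 1) * B ^ k = ∑ k ∈ range q, n2 (k + 1) * B ^ k :=
      Nat.eq_of_mul_eq_mul_left hB (Nat.add_right_cancel h)
    have h5 := ih (fun k => n1 (k + 1)) (fun k => n2 (k + 1)) (fun k hk => h1 _ (Nat.succ_lt_succ hk))
      (fun k hk => h2 _ (Nat.succ_lt_succ hk)) h4
    intro k hk
    cases k with
    | zero => exact h0
    | succ k => exact h5 k (Nat.lt_of_succ_lt_succ hk)

theorem dig : DigStmt := by
  intro q B n1 n2 h1 h2 ha hb k hk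
  have hs : ∀ n : ℕ → ℕ, ∑ k ∈ range q, n k * B ^ (k + 1) = B * ∑ k ∈ range q, n k * B ^ k := by
    intro n
    rw [Finset.mul_sum]
    refine Finset.sum_congr rfl fun k _ => ?_
    rw [pow_succ]
    ring
  rw [hs, hs] at ha hb
  obtain ⟨X, hX⟩ : ∃ X, X = ∑ k ∈ range q, n1 k * B ^ k := ⟨_, rfl⟩
  obtain ⟨Y, hY⟩ : ∃ Y, Y = ∑ k ∈ range q, n2 k * B ^ k := ⟨_, rfl⟩
  rw [← hX, ← hY] at ha hb
  have hXY : X = Y := by
    have h3 : X < Y + 1 := by
      by_contra hc
      push Not at hc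
      have := Nat.mul_le_mul_left B hc
      rw [Nat.mul_add, Nat.mul_one] at this
      omega
    have h4 : Y < X + 1 := by
      by_contra hc
      push Not at hc
      have := Nat.mul_le_mul_left B hc
      rw [Nat.mul_add, Nat.mul_one] at this
      omega
    omega
  exact digits_eq B q n1 n2 h1 h2 (by rw [← hX, ← hY, hXY]) k hk

end Pool.Agent.EQC.H70
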