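import Pool.Agent.EQC.Stmts

/-!
# Squad EQC, row EQU: range and equitable
-/

open SimpleGraph Finset
open Pool.Agent.Helper51_Equitable (edges nbrs vertexSum nb IsEquitableProper Nice mem_edges)

namespace Pool.Agent.EQC.H70

theorem fv_le (c : ℕ) (f : Fin 4) : fv c f ≤ 4 * c + 2 := by
  unfold fv
  split_ifs <;> omega

theorem fv_inj {c : ℕ} (hc : 1 ≤ c) {f g : Fin 4} (h : fv c f = fv c g) : f = g := by
  have h4 : ∀ f : Fin 4, f = 0 ∨ f = 1 ∨ f = 2 ∨ f = 3 := by decide
  have e0 : fv c 0 = 0 := by unfold fv; simp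
  have e1 : fv c 1 = 1 := by unfold fv; simp
  have e2 : fv c 2 = 2 := by unfold fv; simp
  have e3 : fv c 3 = 2 + 4 * c := by unfold fv; simp
  rcases h4 f with rfl | rfl | rfl | rfl <;> rcases h4 g with rfl | rfl | rfl | rfl <;>
    first
    | rfl
    | (exfalso; simp only [e0, e1, e2, e3] at h; omega)

/-- one step of the powers -/
theorem pow_gap {B k k' : ℕ} (hB : 2 ≤ B) (h : k < k') : B ^ (k + 1) + B ≤ B ^ (k' + 1) := by
  have h1 : B ^ (k + 2) ≤ B ^ (k' + 1) := Nat.pow_le_pow_right (by omega) (by omega)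
  have h2 : B ≤ B ^ (k + 1) := by
    calc B = B ^ 1 := (pow_one B).symm
      _ ≤ B ^ (k + 1) := Nat.pow_le_pow_right (by omega) (by omega)
  have h3 : B ^ (k + 2) = B * B ^ (k + 1) := by rw [pow_succ]; ring
  have h4 : 2 * B ^ (k + 1) ≤ B * B ^ (k + 1) := Nat.mul_le_mul_right _ hB
  omega

theorem val_inj {B c : ℕ} (hc : 1 ≤ c) (hB : 4 * c + 3 < B) {k k' : ℕ} {f f' : Fin 4}
    (h : B ^ (k + 1) + fv c f = B ^ (k' + 1) + fv c f') : k = k' ∧ f = f' := by
  have h1 := fv_le c f
  have h2 := fv_le c f'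
  have hk : k = k' := by
    rcases lt_trichotomy k k' with h3 | h3 | h3
    · have := pow_gap (B := B) (by omega) h3
      omega
    · exact h3
    · have := pow_gap (B := B) (by omega) h3
      omega
  subst hk
  exact ⟨rfl, fv_inj hc (Nat.add_left_cancel h)⟩

theorem equ : EquStmt := by
  classical
  intro V _ G c q B K Q κ φ hc hB hκ hnum
  have key : ∀ l, 0 < nb G (fun e => K + B ^ (κ e + 1) + fv c (φ e)) l →
      Q ≤ nb G (fun e => K + B ^ (κ e + 1) + fv c (φ e)) l ∧
        nb G (fun e => K + B ^ (κ e + 1) + fv c (φ e)) l ≤ Q + 1 := by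
    intro l hl
    have hne : {e | e ∈ G.edgeSet ∧ K + B ^ (κ e + 1) + fv c (φ e) = l}.Nonempty := by
      by_contra hcon
      rw [Set.not_nonempty_iff_eq_empty] at hcon
      unfold nb at hl
      rw [hcon, Set.ncard_empty] at hl
      exact lt_irrefl 0 hl
    obtain ⟨e0, he0, hl0⟩ := hne
    have heq : nb G (fun e => K + B ^ (κ e + 1) + fv c (φ e)) l = num G κ φ (κ e0) (φ e0) := by
      unfold nb num
      rw [← Set.ncard_coe_finset]
      congr 1
      ext e
      rw [Finset.mem_coe, Finset.mem_filter, mem_edges]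
      constructor
      · rintro ⟨he, h1⟩
        refine ⟨he, ?_⟩
        have h2 : B ^ (κ e + 1) + fv c (φ e) = B ^ (κ e0 + 1) + fv c (φ e0) := by
          have h3 : K + B ^ (κ e + 1) + fv c (φ e) = l := h1
          omega
        exact val_inj hc hB h2
      · rintro ⟨he, h1, h2⟩
        refine ⟨he, ?_⟩
        show K + B ^ (κ e + 1) + fv c (φ e) = l
        rw [h1, h2, hl0]
    rw [heq]
    exact hnum _ (hκ e0) _
  refine ⟨?_, ?_⟩
  · intro e _
    have h1 : B ^ (κ e + 1) ≤ B ^ q := Nat.pow_le_pow_right (by omega) (hκ e)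
    have h2 := fv_le c (φ e)
    have h3 : 0 < B ^ (κ e + 1) := Nat.pow_pos (by omega)
    omega
  · intro l l' hl hl'
    have h1 := (key l hl).2
    have h2 := (key l' hl').1
    omega

end Pool.Agent.EQC.H70
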