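import Pool.Agent.EQC.Stmts

/-!
# Squad EQC, row HUB: free elements and partners in the lists of the hubs
-/

open Finset

namespace Pool.Agent.EQC.H70

section pos

variable {V : Type} (rk : V → ℕ) (N : Finset V)

/-- position of `v` in the list ordered by decreasing rank -/
def pos (v : V) : ℕ := (N.filter fun w => rk v < rk w).card

variable {rk N}

theorem pos_lt {u v : V} (hv : v ∈ N) (h : rk u < rk v) : pos rk N v < pos rk N u := by
  unfold pos
  apply Finset.card_lt_card
  rw [Finset.ssubset_iff_of_subset]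
  · refine ⟨v, Finset.mem_filter.2 ⟨hv, h⟩, ?_⟩
    intro h2
    exact lt_irrefl _ (Finset.mem_filter.1 h2).2
  · intro w hw
    rw [Finset.mem_filter] at hw ⊢
    exact ⟨hw.1, h.trans hw.2⟩

theorem pos_le {u v : V} (h : rk u ≤ rk v) : pos rk N v ≤ pos rk N u := by
  unfold pos
  apply Finset.card_le_card
  intro w hw
  rw [Finset.mem_filter] at hw ⊢
  exact ⟨hw.1, lt_of_le_of_lt h hw.2⟩

theorem rk_of_pos {u v : V} (h : pos rk N u < pos rk N v) : rk v < rk u := by
  by_contra hc
  push Not at hc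
  exact absurd (pos_le (N := N) hc) (not_le.2 h)

theorem pos_inj (hinj : ∀ u ∈ N, ∀ v ∈ N, rk u = rk v → u = v) {u v : V} (hu : u ∈ N) (hv : v ∈ N)
    (h : pos rk N u = pos rk N v) : u = v := by
  apply hinj u hu v hv
  rcases lt_trichotomy (rk u) (rk v) with h1 | h1 | h1
  · exact absurd h (pos_lt hv h1).ne'
  · exact h1
  · exact absurd h (pos_lt hu h1).ne

theorem pos_bound {v : V} (hv : v ∈ N) : pos rk N v < N.card := by
  unfold pos
  apply Finset.card_lt_card
  rw [Finset.ssubset_iff_of_subset (Finset.filter_subset _ _)]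
  exact ⟨v, hv, fun h2 => lt_irrefl _ (Finset.mem_filter.1 h2).2⟩

theorem pos_surj (hinj : ∀ u ∈ N, ∀ v ∈ N, rk u = rk v → u = v) (j : ℕ) (hj : j < N.card) :
    ∃ v ∈ N, pos rk N v = j := by
  classical
  have h1 : N.image (pos rk N) = range N.card := by
    apply Finset.eq_of_subset_of_card_le
    · intro k hk
      obtain ⟨v, hv, rfl⟩ := Finset.mem_image.1 hk
      exact Finset.mem_range.2 (pos_bound hv)
    · rw [Finset.card_range, Finset.card_image_of_injOn]
      intro u hu v hv h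
      exact pos_inj hinj hu hv h
  have h2 : j ∈ N.image (pos rk N) := by rw [h1]; exact Finset.mem_range.2 hj
  obtain ⟨v, hv, h3⟩ := Finset.mem_image.1 h2
  exact ⟨v, hv, h3⟩

end pos

open Classical in
theorem cnt_le_inj {α β : Type} [Fintype α] [Fintype β] {p : α → Prop} {q : β → Prop} (f : α → β)
    (h : ∀ a, p a → q (f a)) (hi : ∀ a b, p a → p b → f a = f b → a = b) : cnt p ≤ cnt q := by
  unfold cnt
  refine Finset.card_le_card_of_injOn f ?_ ?_
  · intro a ha
    rw [Finset.mem_coe, Finset.mem_filter] at ha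
    rw [Finset.mem_coe, Finset.mem_filter]
    exact ⟨Finset.mem_univ _, h a ha.2⟩
  · intro a ha b hb hab
    rw [Finset.mem_coe, Finset.mem_filter] at ha hb
    exact hi a b ha.2 hb.2 hab

open Classical in
theorem cnt_le_add {α β : Type} [Fintype α] [Fintype β] {p q : α → Prop} {r : β → Prop} (f : β → α)
    (h : ∀ a, p a → q a ∨ ∃ b, r b ∧ f b = a) : cnt p ≤ cnt q + cnt r := by
  unfold cnt
  have h2 : (univ.filter p) ⊆ (univ.filter q) ∪ ((univ.filter r).image f) := by
    intro x hx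
    rw [Finset.mem_filter] at hx
    rw [Finset.mem_union, Finset.mem_filter, Finset.mem_image]
    rcases h x hx.2 with h3 | ⟨b, hb, hbx⟩
    · exact Or.inl ⟨Finset.mem_univ _, h3⟩
    · exact Or.inr ⟨b, Finset.mem_filter.2 ⟨Finset.mem_univ _, hb⟩, hbx⟩
  refine (Finset.card_le_card h2).trans ((Finset.card_union_le _ _).trans ?_)
  exact Nat.add_le_add_left Finset.card_image_le _

theorem hub (bal : BalStmt) : HubStmt := by
  classical
  intro X V _ _ rk N hinj
  have hs : ∀ x : X, ∀ j : ℕ, ∀ _ : j < (N x).card, ∃ v ∈ N x, pos rk (N x) v = j :=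
    fun x j hj => pos_surj (hinj x) j hj
  choose el hel hpel using hs
  obtain ⟨o, ho⟩ := bal (Σ x : X, Fin ((N x).card / 2)) V
    (fun i => el i.1 (2 * i.2) (by have := i.2.2; omega))
    (fun i => el i.1 (2 * i.2 + 1) (by have := i.2.2; omega))
  obtain ⟨hd, hhd⟩ : ∃ hd : (Σ x : X, Fin ((N x).card / 2)) → V, hd = fun i =>
    if o i then el i.1 (2 * i.2) (by have := i.2.2; omega) else
      el i.1 (2 * i.2 + 1) (by have := i.2.2; omega) := ⟨_, rfl⟩
  obtain ⟨tl, htl⟩ : ∃ tl : (Σ x : X, Fin ((N x).card / 2)) → V, tl = fun i =>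
    if o i then el i.1 (2 * i.2 + 1) (by have := i.2.2; omega) else
      el i.1 (2 * i.2) (by have := i.2.2; omega) := ⟨_, rfl⟩
  have hbal : ∀ v, cnt (fun i => tl i = v) ≤ cnt (fun i => hd i = v) + 1 := by
    intro v
    rw [hhd, htl]
    exact (ho v).2
  -- facts on heads and tails
  have hdN : ∀ i, hd i ∈ N i.1 := by
    intro i
    rw [hhd]
    show (if o i then _ else _) ∈ N i.1
    split_ifs
    · exact hel _ _ _
    · exact hel _ _ _
  have tlN : ∀ i, tl i ∈ N i.1 := by
    intro i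
    rw [htl]
    show (if o i then _ else _) ∈ N i.1
    split_ifs
    · exact hel _ _ _
    · exact hel _ _ _
  have hpos : ∀ i, (pos rk (N i.1) (hd i) = 2 * i.2 ∧ pos rk (N i.1) (tl i) = 2 * i.2 + 1) ∨
      (pos rk (N i.1) (hd i) = 2 * i.2 + 1 ∧ pos rk (N i.1) (tl i) = 2 * i.2) := by
    intro i
    rw [hhd, htl]
    by_cases h : o i = true
    · left
      show pos rk (N i.1) (if o i then _ else _) = _ ∧ pos rk (N i.1) (if o i then _ else _) = _
      rw [if_pos h, if_pos h]
      exact ⟨hpel _ _ _, hpel _ _ _⟩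
    · right
      show pos rk (N i.1) (if o i then _ else _) = _ ∧ pos rk (N i.1) (if o i then _ else _) = _
      rw [if_neg h, if_neg h]
      exact ⟨hpel _ _ _, hpel _ _ _⟩
  have hdp : ∀ i, pos rk (N i.1) (hd i) / 2 = i.2 := by
    intro i
    rcases hpos i with h | h
    · rw [h.1]; omega
    · rw [h.1]; omega
  have tlp : ∀ i, pos rk (N i.1) (tl i) / 2 = i.2 := by
    intro i
    rcases hpos i with h | h
    · rw [h.2]; omega
    · rw [h.2]; omega
  have hne : ∀ i, tl i ≠ hd i := by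
    intro i h
    rcases hpos i with h1 | h1
    · rw [h] at h1; omega
    · rw [h] at h1; omega
  have hor : ∀ (x : X) (v : V), v ∈ N x → ∀ j : Fin ((N x).card / 2), pos rk (N x) v / 2 = j →
      v ≠ hd ⟨x, j⟩ → v = tl ⟨x, j⟩ := by
    intro x v hv j hj hnd
    by_contra hnt
    have h1 : pos rk (N x) v ≠ pos rk (N x) (hd ⟨x, j⟩) :=
      fun h => hnd (pos_inj (hinj x) hv (hdN ⟨x, j⟩) h)
    have h2 : pos rk (N x) v ≠ pos rk (N x) (tl ⟨x, j⟩) :=
      fun h => hnt (pos_inj (hinj x) hv (tlN ⟨x, j⟩) h)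
    have h3 := hpos ⟨x, j⟩
    have h4 : ((⟨x, j⟩ : Σ x : X, Fin ((N x).card / 2)).2 : ℕ) = j := rfl
    rw [h4] at h3
    have h5 : (⟨x, j⟩ : Σ x : X, Fin ((N x).card / 2)).1 = x := rfl
    rw [h5] at h3
    omega
  obtain ⟨F, hF⟩ : ∃ F : X → Finset V, F = fun x => (N x).filter (fun v =>
    ∀ j : Fin ((N x).card / 2), pos rk (N x) v / 2 = j → v = hd ⟨x, j⟩) := ⟨_, rfl⟩
  have memF : ∀ x v, v ∈ F x ↔ v ∈ N x ∧
      ∀ j : Fin ((N x).card / 2), pos rk (N x) v / 2 = j → v = hd ⟨x, j⟩ := by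
    intro x v
    rw [hF, Finset.mem_filter]
  have uniq : ∀ x, ∀ u ∈ F x, ∀ v ∈ F x, pos rk (N x) u / 2 = pos rk (N x) v / 2 → u = v := by
    intro x u hu v hv h
    rw [memF] at hu hv
    by_cases hc : pos rk (N x) u / 2 < (N x).card / 2
    · rw [hu.2 ⟨_, hc⟩ rfl, hv.2 ⟨_, hc⟩ h.symm]
    · apply pos_inj (hinj x) hu.1 hv.1
      have h1 := pos_bound (rk := rk) hu.1
      have h2 := pos_bound (rk := rk) hv.1
      omega
  refine ⟨F, fun x v => if pos rk (N x) v / 2 = 0 then none else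
    if h : pos rk (N x) v / 2 - 1 < (N x).card / 2 then some (tl ⟨x, ⟨_, h⟩⟩) else none,
    ?_, ?_, ?_, ?_⟩
  · intro x v hv
    exact ((memF x v).1 hv).1
  · intro x v hv w hw
    have hvN := ((memF x v).1 hv).1
    have hb := pos_bound (rk := rk) hvN
    by_cases h0 : pos rk (N x) v / 2 = 0
    · simp only [if_pos h0] at hw
      exact absurd hw (by simp)
    · have h1 : pos rk (N x) v / 2 - 1 < (N x).card / 2 := by omega
      simp only [if_neg h0, dif_pos h1] at hw
      have hw' : tl ⟨x, ⟨_, h1⟩⟩ = w := Option.some.inj hw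
      subst hw'
      refine ⟨tlN ⟨x, ⟨_, h1⟩⟩, ?_, ?_⟩
      · intro h2
        rw [memF] at h2
        exact hne _ (h2.2 ⟨_, h1⟩ (tlp ⟨x, ⟨_, h1⟩⟩))
      · apply rk_of_pos (N := N x)
        have h3 := tlp ⟨x, ⟨_, h1⟩⟩
        have h4 : pos rk (N x) (tl ⟨x, ⟨_, h1⟩⟩) / 2 = pos rk (N x) v / 2 - 1 := h3
        omega
  · intro x u hu v hv huv
    have huN := ((memF x u).1 hu).1
    have hvN := ((memF x v).1 hv).1
    have hbu := pos_bound (rk := rk) huN
    have hbv := pos_bound (rk := rk) hvN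
    apply uniq x u hu v hv
    by_cases h0 : pos rk (N x) u / 2 = 0
    · by_cases h1 : pos rk (N x) v / 2 = 0
      · rw [h0, h1]
      · have h2 : pos rk (N x) v / 2 - 1 < (N x).card / 2 := by omega
        simp only [if_pos h0, if_neg h1, dif_pos h2] at huv
        exact absurd huv (by simp)
    · have h3 : pos rk (N x) u / 2 - 1 < (N x).card / 2 := by omega
      by_cases h1 : pos rk (N x) v / 2 = 0
      · simp only [if_neg h0, if_pos h1, dif_pos h3] at huv
        exact absurd huv (by simp)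
      · have h2 : pos rk (N x) v / 2 - 1 < (N x).card / 2 := by omega
        simp only [if_neg h0, if_neg h1, dif_pos h2, dif_pos h3] at huv
        have h4 := Option.some.inj huv
        have h5 : pos rk (N x) (tl ⟨x, ⟨_, h3⟩⟩) / 2 = pos rk (N x) u / 2 - 1 := tlp ⟨x, ⟨_, h3⟩⟩
        have h6 : pos rk (N x) (tl ⟨x, ⟨_, h2⟩⟩) / 2 = pos rk (N x) v / 2 - 1 := tlp ⟨x, ⟨_, h2⟩⟩
        rw [h4] at h5
        omega
  · intro v
    have h1 : cnt (fun x => v ∈ N x) ≤ cnt (fun x => v ∈ F x) + cnt (fun i => tl i = v) := by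
      refine cnt_le_add Sigma.fst ?_
      intro x hx
      by_cases h3 : v ∈ F x
      · exact Or.inl h3
      · right
        rw [memF] at h3
        push Not at h3
        obtain ⟨j, hj, hnd⟩ := h3 hx
        exact ⟨⟨x, j⟩, (hor x v hx j hj hnd).symm, rfl⟩
    have h4 : cnt (fun i => hd i = v) ≤ cnt (fun x => v ∈ F x) := by
      refine cnt_le_inj Sigma.fst ?_ ?_
      · rintro ⟨x, j⟩ hi
        have hi2 : hd ⟨x, j⟩ = v := hi
        subst hi2
        show hd ⟨x, j⟩ ∈ F x
        rw [memF]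
        refine ⟨hdN ⟨x, j⟩, ?_⟩
        intro k hk
        have h5 := hdp ⟨x, j⟩
        have h6 : (k : ℕ) = j := by rw [← hk]; exact h5
        rw [Fin.ext h6]
      · rintro ⟨x, j⟩ ⟨x', j'⟩ hi hi' hii
        have hxx : x = x' := hii
        subst hxx
        have h5 := hdp ⟨x, j⟩
        have h6 := hdp ⟨x, j'⟩
        rw [hi] at h5
        rw [hi'] at h6
        have h7 : (j : ℕ) = j' := by
          have h8 : pos rk (N x) v / 2 = j := h5
          have h9 : pos rk (N x) v / 2 = j' := h6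
          omega
        rw [Fin.ext h7]
    have h5 := hbal v
    omega

end Pool.Agent.EQC.H70
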