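import Pool.Agent.EQC.Stmts

/-!
# Squad EQC, row SUM: the vertex sum as a sum over the edges at the vertex
-/

open SimpleGraph Finset
open Pool.Agent.Helper51_Equitable (edges nbrs vertexSum nb IsEquitableProper Nice mem_edges mem_nbrs
  vertexSum_eq)

namespace Pool.Agent.EQC.H70

theorem at'_eq {V : Type} [Fintype V] [DecidableEq (Sym2 V)] (G : SimpleGraph V) (v : V) :
    at' G v = (nbrs G v).image (fun w => s(v, w)) := by
  classical
  ext e
  unfold at'
  rw [Finset.mem_filter, Finset.mem_image, mem_edges]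
  constructor
  · rintro ⟨he, hv⟩
    obtain ⟨w, rfl⟩ := hv
    exact ⟨w, mem_nbrs.2 (G.mem_edgeSet.1 he), rfl⟩
  · rintro ⟨w, hw, rfl⟩
    exact ⟨G.mem_edgeSet.2 (mem_nbrs.1 hw), Sym2.mem_mk_left v w⟩

theorem inj_mk {V : Type} (v : V) : Function.Injective (fun w : V => s(v, w)) := by
  intro a b hab
  exact Sym2.congr_right.1 hab

theorem sum : SumStmt := by
  classical
  intro V _ G ℓ v
  rw [at'_eq, Finset.sum_image (fun a _ b _ h => inj_mk v h),
    Finset.card_image_of_injective _ (inj_mk v), vertexSum_eq]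
  exact ⟨rfl, rfl⟩

end Pool.Agent.EQC.H70
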