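import Pool.Agent.EQC.Stmts

/-!
# Squad EQC, row WIN: distinct edges of `M` for the windowed hubs
-/

open SimpleGraph Finset

namespace Pool.Agent.EQC.H70

theorem win (inj : InjStmt) : WinStmt := by
  classical
  intro V _ G c D d s _
  obtain ⟨X, hX⟩ : ∃ X : Finset V, X = univ.filter (fun x => Xw s x) := ⟨_, rfl⟩
  have memX : ∀ x, x ∈ X ↔ Xw s x := by
    intro x
    rw [hX, Finset.mem_filter]
    exact ⟨fun h => h.2, fun h => ⟨Finset.mem_univ _, h⟩⟩
  have hcard : X.card ≤ ∑ v, (s.WF v).card := by
    have h1 : X ⊆ univ.biUnion s.WF := by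
      intro x hx
      exact Finset.mem_biUnion.2 ⟨d.tau x, Finset.mem_univ _, (memX x).1 hx⟩
    exact (Finset.card_le_card h1).trans Finset.card_biUnion_le
  have hfew := s.few
  have h8 : 8 * X.card ≤ d.M.card := (Nat.mul_le_mul_left 8 hcard).trans hfew
  by_cases hXe : X = ∅
  · have hno : ∀ x, ¬ Xw s x := by
      intro x hx
      have := (memX x).2 hx
      rw [hXe] at this
      exact Finset.notMem_empty _ this
    exact ⟨⟨fun x _ => s(x, x), fun x _ hx => absurd hx (hno x), fun x hx => absurd hx (hno x),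
      fun x hx => absurd hx (hno x), fun x _ _ _ hx => absurd hx (hno x)⟩⟩
  · have hXpos : 1 ≤ X.card := Finset.card_pos.2 (Finset.nonempty_iff_ne_empty.2 hXe)
    obtain ⟨B, hB⟩ : ∃ B : Finset (Sym2 V), B = d.M.filter (fun e => d.r0 ∉ e) := ⟨_, rfl⟩
    have hBc : d.M.card ≤ B.card + 1 := by
      have h1 : (d.M.filter (fun e => d.r0 ∈ e)).card ≤ 1 := by
        rw [Finset.card_le_one]
        intro a ha b hb
        rw [Finset.mem_filter] at ha hb
        exact d.mm.mat a ha.1 b hb.1 d.r0 ha.2 hb.2
      have h2 : (d.M.filter (fun e => d.r0 ∈ e)).card + (d.M.filter (fun e => d.r0 ∉ e)).card =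
          d.M.card := by
        rw [Finset.card_filter_add_card_filter_not]
      rw [hB]
      omega
    obtain ⟨A, hA⟩ : ∃ A : Finset (V × Bool), A = X ×ˢ univ := ⟨_, rfl⟩
    have hAc : A.card = 2 * X.card := by
      rw [hA, Finset.card_product, Finset.card_univ, Fintype.card_bool]
      ring
    have memA : ∀ x b, Xw s x → (x, b) ∈ A := by
      intro x b hx
      rw [hA, Finset.mem_product]
      exact ⟨(memX x).2 hx, Finset.mem_univ _⟩
    obtain ⟨bad, hbad⟩ : ∃ bad : V × Bool → Option (Sym2 V), bad = fun j =>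
      if j.2 = true then
        (if h : ∃ e ∈ d.M, d.tau j.1 ∈ e then some h.choose else none)
      else
        (if h : ∃ e ∈ d.M, ∃ v ∈ d.F j.1, d.par j.1 v = none ∧ v ∈ e then some h.choose
          else none) := ⟨_, rfl⟩
    obtain ⟨g, hgB, hgbad, hginj⟩ := inj (V × Bool) (Sym2 V) A B bad (by omega)
    have hgM : ∀ x b, Xw s x → g (x, b) ∈ d.M ∧ d.r0 ∉ g (x, b) := by
      intro x b hx
      have h1 := hgB _ (memA x b hx)
      rw [hB, Finset.mem_filter] at h1
      exact h1
    refine ⟨⟨fun x b => g (x, b), hgM, ?_, ?_, ?_⟩⟩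
    · intro x hx hmem
      have hM := (hgM x true hx).1
      have hex : ∃ e ∈ d.M, d.tau x ∈ e := ⟨_, hM, hmem⟩
      apply hgbad _ (memA x true hx)
      have h1 : bad (x, true) = some hex.choose := by
        rw [hbad]
        show (if true = true then
          (if h : ∃ e ∈ d.M, d.tau x ∈ e then some h.choose else none) else _) = _
        rw [if_pos rfl, dif_pos hex]
      rw [h1]
      congr 1
      exact d.mm.mat _ hex.choose_spec.1 _ hM _ hex.choose_spec.2 hmem
    · intro x hx v hv hpar hmem
      have hM := (hgM x false hx).1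
      have hhub := s.WF_sub _ x hx
      have hex : ∃ e ∈ d.M, ∃ v ∈ d.F x, d.par x v = none ∧ v ∈ e := ⟨_, hM, v, hv, hpar, hmem⟩
      apply hgbad _ (memA x false hx)
      have h1 : bad (x, false) = some hex.choose := by
        rw [hbad]
        show (if false = true then _ else
          (if h : ∃ e ∈ d.M, ∃ v ∈ d.F x, d.par x v = none ∧ v ∈ e then some h.choose
            else none)) = _
        rw [if_neg (by decide), dif_pos hex]
      rw [h1]
      congr 1
      obtain ⟨hc1, v', hv', hp', hm'⟩ := hex.choose_spec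
      have hvv : v' = v := d.par_inj x hhub.1 hhub.2.1 v' hv' v hv (hp'.trans hpar.symm)
      subst hvv
      exact d.mm.mat _ hc1 _ hM _ hm' hmem
    · intro x b x' b' hx hx' h
      have h1 := hginj _ (memA x b hx) _ (memA x' b' hx') h
      exact Prod.mk.inj h1

end Pool.Agent.EQC.H70
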